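import Mathlib

/-! The Cantor fan: every nondegenerate subcontinuum has a dense arcwise connected set of local
separating points, and the Knaster-Kuratowski fan in it is connected and contains no arc. -/

namespace Pool.Agent.KS6_70.Fan

open Set Filter Topology

/-- The point at height `t` on the leg of slope `c`. -/
def pt (c t : ℝ) : ℝ × ℝ := (t * c, t)

/-- The slope of a point. -/
noncomputable def slope (p : ℝ × ℝ) : ℝ := p.1 / p.2

theorem slope_pt {c t : ℝ} (ht : t ≠ 0) : slope (pt c t) = c := by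
  simp [slope, pt, mul_div_cancel_left₀ _ ht]

theorem pt_snd (c t : ℝ) : (pt c t).2 = t := rfl

theorem pt_zero (c : ℝ) : pt c 0 = 0 := by simp [pt]

theorem pt_cont : Continuous fun q : ℝ × ℝ => pt q.1 q.2 := by unfold pt; fun_prop

theorem pt_cont_left (t : ℝ) : Continuous fun c : ℝ => pt c t := by unfold pt; fun_prop

theorem pt_cont_right (c : ℝ) : Continuous fun t : ℝ => pt c t := by unfold pt; fun_prop

theorem slope_cont : ContinuousOn slope {p | 0 < p.2} := by
  unfold slope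
  exact continuousOn_fst.div continuousOn_snd fun p hp => (show 0 < p.2 from hp).ne'

theorem eq_pt {p : ℝ × ℝ} (hp : p.2 ≠ 0) : p = pt (slope p) p.2 := by
  refine Prod.ext ?_ rfl
  simp [pt, slope, mul_div_cancel₀ _ hp]

/-- The Cantor fan. -/
def fan : Set (ℝ × ℝ) := {p | ∃ c ∈ cantorSet, ∃ t ∈ Icc (0:ℝ) 1, p = pt c t}

theorem fan_eq : fan = (fun q : ℝ × ℝ => pt q.1 q.2) '' (cantorSet ×ˢ Icc (0:ℝ) 1) := by
  ext p
  constructor
  · rintro ⟨c, hc, t, ht, rfl⟩
    exact ⟨(c, t), ⟨hc, ht⟩, rfl⟩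
  · rintro ⟨⟨c, t⟩, ⟨hc, ht⟩, rfl⟩
    exact ⟨c, hc, t, ht, rfl⟩

theorem isCompact_fan : IsCompact fan := by
  rw [fan_eq]
  exact (isCompact_cantorSet.prod isCompact_Icc).image pt_cont

theorem zero_mem_fan : (0 : ℝ × ℝ) ∈ fan :=
  ⟨0, zero_mem_cantorSet, 0, ⟨le_rfl, zero_le_one⟩, (pt_zero 0).symm⟩

theorem starConvex_fan : StarConvex ℝ 0 fan := by
  rintro _ ⟨c, hc, t, ht, rfl⟩ a b ha hb hab
  refine ⟨c, hc, b * t, ⟨mul_nonneg hb ht.1, ?_⟩, ?_⟩
  · nlinarith [ht.1, ht.2]
  · ext <;> simp [pt, mul_assoc]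

theorem fan_nonneg {p : ℝ × ℝ} (hp : p ∈ fan) : 0 ≤ p.2 := by
  obtain ⟨c, _, t, ht, rfl⟩ := hp
  exact ht.1

theorem fan_zero {p : ℝ × ℝ} (hp : p ∈ fan) (h : p.2 = 0) : p = 0 := by
  obtain ⟨c, _, t, ht, rfl⟩ := hp
  rw [pt_snd] at h
  rw [h, pt_zero]

theorem fan_slope {p : ℝ × ℝ} (hp : p ∈ fan) (h : 0 < p.2) : slope p ∈ cantorSet := by
  obtain ⟨c, hc, t, ht, rfl⟩ := hp
  rw [pt_snd] at h
  rwa [slope_pt h.ne']

theorem isTotallyDisconnected_cantorSet : IsTotallyDisconnected cantorSet := by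
  rw [← totallyDisconnectedSpace_subtype_iff]
  exact cantorSetHomeomorphNatToBool.symm.totallyDisconnectedSpace

/-- A preconnected subset of the fan without the apex lies on one leg. -/
theorem slope_const {S : Set (ℝ × ℝ)} (hS : IsPreconnected S) (hF : S ⊆ fan)
    (hpos : ∀ p ∈ S, 0 < p.2) {p q : ℝ × ℝ} (hp : p ∈ S) (hq : q ∈ S) : slope p = slope q := by
  have h1 : IsPreconnected (slope '' S) := hS.image _ (slope_cont.mono hpos)
  have h2 : slope '' S ⊆ cantorSet := by
    rintro _ ⟨r, hr, rfl⟩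
    exact fan_slope (hF hr) (hpos r hr)
  exact isTotallyDisconnected_cantorSet _ h2 h1 (mem_image_of_mem _ hp) (mem_image_of_mem _ hq)

/-- Local separating points of the subspace `C` of the plane. -/
def localSep (C : Set (ℝ × ℝ)) : Set (ℝ × ℝ) :=
  {p | p ∈ C ∧ ∃ V : Set (ℝ × ℝ), IsOpen V ∧ p ∈ V ∧
    ¬ IsPreconnected (connectedComponentIn (V ∩ C) p \ {p})}

/-- Inner points of segments on a leg in `C` are local separating points. -/
theorem inner {C : Set (ℝ × ℝ)} (hC : C ⊆ fan) {c s₁ s s₂ : ℝ} (h0 : 0 < s₁) (h1 : s₁ < s)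
    (h2 : s < s₂) (hseg : ∀ r ∈ Icc s₁ s₂, pt c r ∈ C) : pt c s ∈ localSep C := by
  have hsC : pt c s ∈ C := hseg s ⟨h1.le, h2.le⟩
  refine ⟨hsC, {p | 0 < p.2}, isOpen_lt continuous_const continuous_snd, h0.trans h1, fun hpre => ?_⟩
  set V : Set (ℝ × ℝ) := {p | 0 < p.2} with hV
  set D := connectedComponentIn (V ∩ C) (pt c s) with hD
  have hDsub : D ⊆ V ∩ C := connectedComponentIn_subset _ _
  have hpD : pt c s ∈ D := mem_connectedComponentIn ⟨h0.trans h1, hsC⟩
  have hDpre : IsPreconnected D := isPreconnected_connectedComponentIn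
  have hsegD : (fun r => pt c r) '' Icc s₁ s₂ ⊆ D := by
    refine (isPreconnected_Icc.image _ (pt_cont_right c).continuousOn).subset_connectedComponentIn
      ⟨s, ⟨h1.le, h2.le⟩, rfl⟩ ?_
    rintro _ ⟨r, hr, rfl⟩
    exact ⟨h0.trans_le hr.1, hseg r hr⟩
  have hmem : ∀ r ∈ Icc s₁ s₂, r ≠ s → pt c r ∈ D \ {pt c s} := by
    intro r hr hne
    refine ⟨hsegD ⟨r, hr, rfl⟩, fun h => hne ?_⟩
    exact congrArg Prod.snd (mem_singleton_iff.1 h)
  have ha := hmem s₁ ⟨le_rfl, (h1.trans h2).le⟩ h1.ne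
  have hb := hmem s₂ ⟨(h1.trans h2).le, le_rfl⟩ h2.ne'
  obtain ⟨z, hz, hzs⟩ := hpre.intermediate_value ha hb continuous_snd.continuousOn
    (show s ∈ Icc _ _ from ⟨h1.le, h2.le⟩)
  apply hz.2
  have hz0 : 0 < z.2 := (hDsub hz.1).1
  have := slope_const hDpre (hDsub.trans (inter_subset_right.trans hC))
    (fun p hp => (hDsub hp).1) hz.1 hpD
  rw [slope_pt (h0.trans h1).ne'] at this
  rw [mem_singleton_iff, eq_pt hz0.ne', this, hzs]

/-- A subcontinuum that contains the apex contains with each point the leg below it. -/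
theorem downward {C : Set (ℝ × ℝ)} (hC : C ⊆ fan) (hcl : IsClosed C) (hconn : IsPreconnected C)
    (h0 : (0 : ℝ × ℝ) ∈ C) {c t s : ℝ} (hc : c ∈ cantorSet) (ht : pt c t ∈ C) (hs0 : 0 ≤ s)
    (hst : s ≤ t) : pt c s ∈ C := by
  by_contra hs
  have hs0' : 0 < s := by
    rcases hs0.eq_or_lt with h | h
    · exact absurd (by rw [← h, pt_zero]; exact h0) hs
    · exact h
  have hst' : s < t := by
    rcases hst.eq_or_lt with h | h
    · exact absurd (by rw [h]; exact ht) hs
    · exact h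
  have : CompactSpace cantorSet := isCompact_iff_compactSpace.1 isCompact_cantorSet
  have : TotallyDisconnectedSpace cantorSet :=
    totallyDisconnectedSpace_subtype_iff.2 isTotallyDisconnected_cantorSet
  have hW : IsOpen {x : cantorSet | pt (x : ℝ) s ∉ C} :=
    hcl.isOpen_compl.preimage ((pt_cont_left s).comp continuous_subtype_val)
  obtain ⟨N, hN, hcN, hNW⟩ := compact_exists_isClopen_in_isOpen hW
    (show (⟨c, hc⟩ : cantorSet) ∈ {x : cantorSet | pt (x : ℝ) s ∉ C} from hs)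
  obtain ⟨N₁, hN₁, hN₁'⟩ := isOpen_induced_iff.1 hN.isOpen
  obtain ⟨N₂, hN₂, hN₂'⟩ := isOpen_induced_iff.1 hN.compl.isOpen
  have hopen : ∀ M : Set ℝ, IsOpen M → IsOpen {p : ℝ × ℝ | 0 < p.2 ∧ slope p ∈ M} := fun M hM =>
    slope_cont.isOpen_inter_preimage (isOpen_lt continuous_const continuous_snd) hM
  have key := hconn ({p : ℝ × ℝ | s < p.2} ∩ {p : ℝ × ℝ | 0 < p.2 ∧ slope p ∈ N₁})
    ({p : ℝ × ℝ | p.2 < s} ∪ {p : ℝ × ℝ | 0 < p.2 ∧ slope p ∈ N₂})
    ((isOpen_lt continuous_const continuous_snd).inter (hopen _ hN₁))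
    ((isOpen_lt continuous_snd continuous_const).union (hopen _ hN₂)) (by
      intro p hp
      by_cases h1 : p.2 < s
      · exact Or.inr (Or.inl h1)
      have hp0 : 0 < p.2 := hs0'.trans_le (not_lt.1 h1)
      have hsl := fan_slope (hC hp) hp0
      by_cases h2 : (⟨slope p, hsl⟩ : cantorSet) ∈ N
      · left
        refine ⟨?_, hp0, ?_⟩
        · rcases (not_lt.1 h1).eq_or_lt with h | h
          · exfalso
            refine hNW h2 ?_
            show pt (slope p) s ∈ C
            rw [h, ← eq_pt hp0.ne']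
            exact hp
          · exact h
        · rw [← hN₁'] at h2
          exact h2
      · right; right
        refine ⟨hp0, ?_⟩
        have : (⟨slope p, hsl⟩ : cantorSet) ∈ Nᶜ := h2
        rw [← hN₂'] at this
        exact this)
    ⟨pt c t, ht, hst', hs0'.trans hst', by
      rw [slope_pt (hs0'.trans hst').ne']
      rw [← hN₁'] at hcN
      exact hcN⟩
    ⟨0, h0, Or.inl hs0'⟩
  obtain ⟨p, hp, ⟨h1, h2, h3⟩, h4⟩ := key
  rcases h4 with h4 | ⟨-, h4⟩
  · exact lt_asymm (show s < p.2 from h1) (show p.2 < s from h4)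
  · have hsl := fan_slope (hC hp) h2
    have e1 : (⟨slope p, hsl⟩ : cantorSet) ∈ N := by rw [← hN₁']; exact h3
    have e2 : (⟨slope p, hsl⟩ : cantorSet) ∈ Nᶜ := by rw [← hN₂']; exact h4
    exact e2 e1

/-- Straight arcs. -/
theorem seg_arc {C : Set (ℝ × ℝ)} (hC : C ⊆ fan) {c t₁ t₂ : ℝ} (h1 : 0 ≤ t₁) (h2 : 0 ≤ t₂)
    (hne : t₁ ≠ t₂) (h : ∀ r ∈ uIcc t₁ t₂, pt c r ∈ C) :
    ∃ f : unitInterval → ℝ × ℝ, Continuous f ∧ Function.Injective f ∧ f 0 = pt c t₁ ∧
      f 1 = pt c t₂ ∧ ∀ u, u ≠ 0 → u ≠ 1 → f u ∈ localSep C := by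
  refine ⟨fun u => pt c ((1 - (u : ℝ)) * t₁ + u * t₂),
    (pt_cont_right c).comp (by fun_prop), fun u v huv => ?_, by simp, by simp, fun u hu0 hu1 => ?_⟩
  · have h3 : (1 - (u : ℝ)) * t₁ + u * t₂ = (1 - (v : ℝ)) * t₁ + v * t₂ := congrArg Prod.snd huv
    have h4 : ((u : ℝ) - v) * (t₂ - t₁) = 0 := by linarith
    rcases mul_eq_zero.1 h4 with h5 | h5
    · exact Subtype.ext (sub_eq_zero.1 h5)
    · exact absurd (sub_eq_zero.1 h5).symm hne
  · have hu0' : 0 < (u : ℝ) := lt_of_le_of_ne u.2.1 fun h => hu0 (Subtype.ext h.symm)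
    have hu1' : (u : ℝ) < 1 := lt_of_le_of_ne u.2.2 fun h => hu1 (Subtype.ext h)
    set s := (1 - (u : ℝ)) * t₁ + u * t₂ with hs
    rcases lt_or_gt_of_ne hne with hlt | hlt
    · have a1 : t₁ < s := by nlinarith
      have a2 : s < t₂ := by nlinarith
      refine inner hC (s₁ := (t₁ + s) / 2) (s₂ := t₂) (by linarith) (by linarith) a2 fun r hr => h r ?_
      rw [uIcc_of_le hlt.le]
      exact ⟨by linarith [hr.1], hr.2⟩
    · have a1 : t₂ < s := by nlinarith
      have a2 : s < t₁ := by nlinarith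
      refine inner hC (s₁ := (t₂ + s) / 2) (s₂ := t₁) (by linarith) (by linarith) a2 fun r hr => h r ?_
      rw [uIcc_of_ge hlt.le]
      exact ⟨by linarith [hr.1], hr.2⟩

/-- The apex separates every subcontinuum with points on two legs. -/
theorem apex_sep {C : Set (ℝ × ℝ)} (hC : C ⊆ fan) (hconn : IsPreconnected C)
    (h0 : (0 : ℝ × ℝ) ∈ C) {p q : ℝ × ℝ} (hp : p ∈ C) (hq : q ∈ C) (hp0 : 0 < p.2)
    (hq0 : 0 < q.2) (hpq : slope p ≠ slope q) : (0 : ℝ × ℝ) ∈ localSep C := by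
  refine ⟨h0, univ, isOpen_univ, mem_univ _, fun hpre => hpq ?_⟩
  rw [univ_inter, hconn.connectedComponentIn h0] at hpre
  refine slope_const hpre (sdiff_subset.trans hC) (fun r hr => ?_) ⟨hp, ?_⟩ ⟨hq, ?_⟩
  · exact lt_of_le_of_ne (fan_nonneg (hC hr.1)) fun h => hr.2 (fan_zero (hC hr.1) h.symm)
  · rintro h
    rw [mem_singleton_iff.1 h] at hp0
    exact lt_irrefl _ hp0
  · rintro h
    rw [mem_singleton_iff.1 h] at hq0
    exact lt_irrefl _ hq0

/-- Any two distinct points of a subcontinuum `C` of the fan are joined by an arc whose inner points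
are local separating points of `C`. -/
theorem arc {C : Set (ℝ × ℝ)} (hC : C ⊆ fan) (hcl : IsClosed C) (hconn : IsPreconnected C)
    {p q : ℝ × ℝ} (hp : p ∈ C) (hq : q ∈ C) (hpq : p ≠ q) :
    ∃ f : unitInterval → ℝ × ℝ, Continuous f ∧ Function.Injective f ∧ f 0 = p ∧
      f 1 = q ∧ ∀ u, u ≠ 0 → u ≠ 1 → f u ∈ localSep C := by
  by_cases h0 : (0 : ℝ × ℝ) ∈ C
  · obtain ⟨c₁, hc₁, t₁, ht₁, rfl⟩ := hC hp
    obtain ⟨c₂, hc₂, t₂, ht₂, rfl⟩ := hC hq
    have hsame : ∀ c ∈ cantorSet, ∀ a b : ℝ, 0 ≤ a → 0 ≤ b → pt c a ∈ C → pt c b ∈ C →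
        ∀ r ∈ uIcc a b, pt c r ∈ C := by
      intro c hc a b ha hb hpa hpb r hr
      rcases le_total a b with hab | hab
      · rw [uIcc_of_le hab] at hr
        exact downward hC hcl hconn h0 hc hpb (ha.trans hr.1) hr.2
      · rw [uIcc_of_ge hab] at hr
        exact downward hC hcl hconn h0 hc hpa (hb.trans hr.1) hr.2
    rcases ht₁.1.eq_or_lt with h1 | h1
    · rw [← h1, pt_zero, ← pt_zero c₂] at hp hpq ⊢
      exact seg_arc hC le_rfl ht₂.1 (fun h => hpq (by rw [h])) (hsame c₂ hc₂ _ _ le_rfl ht₂.1 hp hq)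
    rcases ht₂.1.eq_or_lt with h2 | h2
    · rw [← h2, pt_zero, ← pt_zero c₁] at hq hpq ⊢
      exact seg_arc hC ht₁.1 le_rfl (fun h => hpq (by rw [h])) (hsame c₁ hc₁ _ _ ht₁.1 le_rfl hp hq)
    by_cases hcc : c₁ = c₂
    · subst hcc
      exact seg_arc hC ht₁.1 ht₂.1 (fun h => hpq (by rw [h])) (hsame c₁ hc₁ _ _ ht₁.1 ht₂.1 hp hq)
    -- two different legs
    have hz : (0 : ℝ × ℝ) ∈ localSep C := apex_sep hC hconn h0 hp hq h1 h2
      (by rw [slope_pt h1.ne', slope_pt h2.ne']; exact hcc)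
    have hin : ∀ c ∈ cantorSet, ∀ t s : ℝ, 0 < s → s < t → pt c t ∈ C → pt c s ∈ localSep C := by
      intro c hc t s hs hst htC
      exact inner hC (half_pos hs) (half_lt_self hs) hst fun r hr =>
        downward hC hcl hconn h0 hc htC ((half_pos hs).le.trans hr.1) hr.2
    let f : unitInterval → ℝ × ℝ := fun u =>
      pt c₁ (max (1 - 2 * (u : ℝ)) 0 * t₁) + pt c₂ (max (2 * (u : ℝ) - 1) 0 * t₂)
    have f1 : ∀ u : unitInterval, (u : ℝ) ≤ 1 / 2 → f u = pt c₁ ((1 - 2 * (u : ℝ)) * t₁) := by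
      intro u hu
      simp only [f]
      rw [max_eq_left (by linarith), max_eq_right (by linarith), zero_mul, pt_zero, add_zero]
    have f2 : ∀ u : unitInterval, 1 / 2 ≤ (u : ℝ) → f u = pt c₂ ((2 * (u : ℝ) - 1) * t₂) := by
      intro u hu
      simp only [f]
      rw [max_eq_right (by linarith), max_eq_left (by linarith), zero_mul, pt_zero, zero_add]
    have hmix : ∀ u v : unitInterval, (u : ℝ) < 1 / 2 → 1 / 2 < (v : ℝ) → f u ≠ f v := by
      intro u v hu hv huv
      rw [f1 u hu.le, f2 v hv.le] at huv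
      have a1 : 0 < (1 - 2 * (u : ℝ)) * t₁ := mul_pos (by linarith) h1
      have a2 : 0 < (2 * (v : ℝ) - 1) * t₂ := mul_pos (by linarith) h2
      have := congrArg slope huv
      rw [slope_pt a1.ne', slope_pt a2.ne'] at this
      exact hcc this
    refine ⟨f, ?_, ?_, ?_, ?_, ?_⟩
    · exact ((pt_cont_right c₁).comp (by fun_prop)).add ((pt_cont_right c₂).comp (by fun_prop))
    · intro u v huv
      rcases le_or_gt (u : ℝ) (1 / 2) with hu | hu
      · rcases le_or_gt (v : ℝ) (1 / 2) with hv | hv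
        · rw [f1 u hu, f1 v hv] at huv
          have h3 : (1 - 2 * (u : ℝ)) * t₁ = (1 - 2 * (v : ℝ)) * t₁ := congrArg Prod.snd huv
          have := mul_right_cancel₀ h1.ne' h3
          exact Subtype.ext (by linarith)
        · rcases hu.eq_or_lt with hu' | hu'
          · rw [f2 u hu'.ge, f2 v hv.le] at huv
            have h3 : (2 * (u : ℝ) - 1) * t₂ = (2 * (v : ℝ) - 1) * t₂ := congrArg Prod.snd huv
            have := mul_right_cancel₀ h2.ne' h3
            exact Subtype.ext (by linarith)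
          · exact absurd huv (hmix u v hu' hv)
      · rcases le_or_gt (v : ℝ) (1 / 2) with hv | hv
        · rcases hv.eq_or_lt with hv' | hv'
          · rw [f2 u hu.le, f2 v hv'.ge] at huv
            have h3 : (2 * (u : ℝ) - 1) * t₂ = (2 * (v : ℝ) - 1) * t₂ := congrArg Prod.snd huv
            have := mul_right_cancel₀ h2.ne' h3
            exact Subtype.ext (by linarith)
          · exact absurd huv.symm (hmix v u hv' hu)
        · rw [f2 u hu.le, f2 v hv.le] at huv
          have h3 : (2 * (u : ℝ) - 1) * t₂ = (2 * (v : ℝ) - 1) * t₂ := congrArg Prod.snd huv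
          have := mul_right_cancel₀ h2.ne' h3
          exact Subtype.ext (by linarith)
    · rw [f1 0 (by simp)]
      simp
    · rw [f2 1 (by norm_num)]
      congr 1
      simp
      ring
    · intro u hu0 hu1
      have hu0' : 0 < (u : ℝ) := lt_of_le_of_ne u.2.1 fun h => hu0 (Subtype.ext h.symm)
      have hu1' : (u : ℝ) < 1 := lt_of_le_of_ne u.2.2 fun h => hu1 (Subtype.ext h)
      rcases lt_trichotomy (u : ℝ) (1 / 2) with hu | hu | hu
      · rw [f1 u hu.le]
        exact hin c₁ hc₁ t₁ _ (mul_pos (by linarith) h1) (by nlinarith) hp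
      · rw [f1 u hu.le, hu]
        simpa [pt_zero] using hz
      · rw [f2 u hu.le]
        exact hin c₂ hc₂ t₂ _ (mul_pos (by linarith) h2) (by nlinarith) hq
  · have hpos : ∀ r ∈ C, 0 < r.2 := fun r hr =>
      lt_of_le_of_ne (fan_nonneg (hC hr)) fun h => h0 (fan_zero (hC hr) h.symm ▸ hr)
    have hsl : slope p = slope q := slope_const hconn hC hpos hp hq
    have hp' := eq_pt (hpos p hp).ne'
    have hq' := eq_pt (hpos q hq).ne'
    rw [← hsl] at hq'
    have hne : p.2 ≠ q.2 := fun h => hpq (by rw [hp', hq', h])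
    obtain ⟨f, h1, h2, h3, h4, h5⟩ := seg_arc hC (c := slope p) (hpos p hp).le (hpos q hq).le hne (by
      intro r hr
      have hr' : r ∈ Prod.snd '' C := by
        have ho : OrdConnected (Prod.snd '' C) :=
          (hconn.image _ continuous_snd.continuousOn).ordConnected
        exact ho.uIcc_subset (mem_image_of_mem _ hp) (mem_image_of_mem _ hq) hr
      obtain ⟨z, hz, rfl⟩ := hr'
      have e : slope p = slope z := slope_const hconn hC hpos hp hz
      rw [e, ← eq_pt (hpos z hz).ne']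
      exact hz)
    exact ⟨f, h1, h2, h3.trans hp'.symm, h4.trans hq'.symm, h5⟩

/-- No point of the Cantor set is isolated. -/
theorem not_isOpen_singleton (x : cantorSet) : ¬ IsOpen ({x} : Set cantorSet) := by
  intro h
  have h2 : IsOpen ({cantorSetHomeomorphNatToBool x} : Set (ℕ → Bool)) := by
    rw [← image_singleton]
    exact cantorSetHomeomorphNatToBool.isOpenMap _ h
  set y := cantorSetHomeomorphNatToBool x
  have h3 : Tendsto (fun n => Function.update y n (!y n)) atTop (𝓝 y) := by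
    rw [tendsto_pi_nhds]
    intro k
    refine tendsto_const_nhds.congr' ?_
    filter_upwards [eventually_gt_atTop k] with n hn
    rw [Function.update_of_ne hn.ne]
  obtain ⟨n, hn⟩ := (h3.eventually (h2.mem_nhds (mem_singleton y))).exists
  have := congrFun (mem_singleton_iff.1 hn) n
  rw [Function.update_self] at this
  cases h : y n <;> simp [h] at this

/-- The Knaster-Kuratowski set: rational heights on the legs in `E`, irrational ones elsewhere. -/
def kk (E : Set cantorSet) : Set (ℝ × ℝ) :=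
  {p | ∃ c : cantorSet, ∃ t ∈ Icc (0:ℝ) 1, p = pt c t ∧ (c ∈ E ↔ ∃ q : ℚ, (q : ℝ) = t)}

theorem kk_sub (E : Set cantorSet) : kk E ⊆ fan := by
  rintro _ ⟨c, t, ht, rfl, -⟩
  exact ⟨c, c.2, t, ht, rfl⟩

theorem zero_mem_kk {E : Set cantorSet} (hE : E.Nonempty) : (0 : ℝ × ℝ) ∈ kk E := by
  obtain ⟨c, hc⟩ := hE
  exact ⟨c, 0, ⟨le_rfl, zero_le_one⟩, (pt_zero _).symm, fun _ => ⟨0, by simp⟩, fun _ => hc⟩

theorem fan_sub_closure_kk (E : Set cantorSet) : fan ⊆ closure (kk E) := by
  rintro _ ⟨c, hc, t, ht, rfl⟩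
  let D : Set ℝ := {r | (⟨c, hc⟩ : cantorSet) ∈ E ↔ ∃ q : ℚ, (q : ℝ) = r}
  have hD : Dense D := by
    by_cases hcE : (⟨c, hc⟩ : cantorSet) ∈ E
    · refine Dense.mono ?_ Rat.denseRange_cast
      rintro _ ⟨q, rfl⟩
      exact ⟨fun _ => ⟨q, rfl⟩, fun _ => hcE⟩
    · refine Dense.mono ?_ dense_irrational
      intro r hr
      exact ⟨fun h => absurd h hcE, fun ⟨q, hq⟩ => absurd ⟨q, hq⟩ hr⟩
  have h1 : t ∈ closure (Ioo (0:ℝ) 1 ∩ D) := by
    have h2 : closure (Ioo (0:ℝ) 1) ⊆ closure (Ioo (0:ℝ) 1 ∩ D) :=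
      closure_minimal (hD.open_subset_closure_inter isOpen_Ioo) isClosed_closure
    rw [closure_Ioo zero_ne_one] at h2
    exact h2 ht
  have h3 := image_closure_subset_closure_image (pt_cont_right c) (mem_image_of_mem _ h1)
  refine closure_mono ?_ h3
  rintro _ ⟨r, hr, rfl⟩
  exact ⟨⟨c, hc⟩, r, ⟨hr.1.1.le, hr.1.2.le⟩, rfl, hr.2⟩

theorem kk_core {E : Set cantorSet} (hEc : E.Countable) (hEd : Dense E) {U V : Set (ℝ × ℝ)}
    (hU : IsOpen U) (hV : IsOpen V) (hUV : kk E ⊆ U ∪ V) (hd : ∀ p ∈ fan, p ∈ U → p ∉ V)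
    (h0 : (0 : ℝ × ℝ) ∈ U) {y : ℝ × ℝ} (hy : y ∈ kk E) (hyV : y ∈ V) : False := by
  have : CompactSpace cantorSet := isCompact_iff_compactSpace.1 isCompact_cantorSet
  obtain ⟨c₀, t₀, ht₀, rfl, -⟩ := hy
  let N : Set cantorSet := {c | pt (c : ℝ) t₀ ∈ V}
  have hN : IsOpen N := hV.preimage ((pt_cont_left t₀).comp continuous_subtype_val)
  have hgap : ∀ c ∈ N, ∃ r ∈ Icc (0:ℝ) t₀, pt (c : ℝ) r ∉ U ∧ pt (c : ℝ) r ∉ V := by
    intro c hc
    by_contra hcon
    push Not at hcon
    obtain ⟨r, hr, hrU, hrV⟩ := isPreconnected_Icc (a := (0:ℝ)) (b := t₀)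
      ((fun r => pt (c : ℝ) r) ⁻¹' U) ((fun r => pt (c : ℝ) r) ⁻¹' V)
      (hU.preimage (pt_cont_right _)) (hV.preimage (pt_cont_right _))
      (fun r hr => by
        by_cases h : pt (c : ℝ) r ∈ U
        · exact Or.inl h
        · exact Or.inr (hcon r hr h))
      ⟨0, ⟨le_rfl, ht₀.1⟩, by
        show pt (c : ℝ) 0 ∈ U
        rw [pt_zero]
        exact h0⟩
      ⟨t₀, ⟨ht₀.1, le_rfl⟩, hc⟩
    exact hd _ ⟨c, c.2, r, ⟨hr.1, hr.2.trans ht₀.2⟩, rfl⟩ hrU hrV
  have hEc' : Countable E := hEc.to_subtype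
  let f : Option (E ⊕ ℚ) → Set cantorSet := fun i =>
    match i with
    | none => Nᶜ
    | some (Sum.inl e) => {(e : cantorSet)}
    | some (Sum.inr r) => {c | ((r : ℝ) ∈ Icc (0:ℝ) 1) ∧ (pt (c : ℝ) r ∉ U ∧ pt (c : ℝ) r ∉ V)}
  have hfc : ∀ i, IsClosed (f i) := by
    intro i
    match i with
    | none => exact hN.isClosed_compl
    | some (Sum.inl e) => exact isClosed_singleton
    | some (Sum.inr r) =>
      refine isClosed_const.inter (IsClosed.inter ?_ ?_)
      · exact hU.isClosed_compl.preimage ((pt_cont_left (r : ℝ)).comp continuous_subtype_val)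
      · exact hV.isClosed_compl.preimage ((pt_cont_left (r : ℝ)).comp continuous_subtype_val)
  have hfu : ⋃ i, f i = univ := by
    refine eq_univ_iff_forall.2 fun c => ?_
    by_cases hc : c ∈ N
    · obtain ⟨r, hr, hrU, hrV⟩ := hgap c hc
      have hr1 : r ∈ Icc (0:ℝ) 1 := ⟨hr.1, hr.2.trans ht₀.2⟩
      have hnot : ¬ (c ∈ E ↔ ∃ q : ℚ, (q : ℝ) = r) := fun h => by
        rcases hUV ⟨c, r, hr1, rfl, h⟩ with h | h
        · exact hrU h
        · exact hrV h
      by_cases hcE : c ∈ E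
      · exact mem_iUnion.2 ⟨some (Sum.inl ⟨c, hcE⟩), mem_singleton _⟩
      · have : ∃ q : ℚ, (q : ℝ) = r := by
          by_contra hq
          exact hnot ⟨fun h => absurd h hcE, fun h => absurd h hq⟩
        obtain ⟨q, hq⟩ := this
        refine mem_iUnion.2 ⟨some (Sum.inr q), ?_⟩
        show ((q : ℝ) ∈ Icc (0:ℝ) 1) ∧ (pt (c : ℝ) q ∉ U ∧ pt (c : ℝ) q ∉ V)
        rw [hq]
        exact ⟨hr1, hrU, hrV⟩
    · exact mem_iUnion.2 ⟨none, hc⟩
  have hdense := dense_iUnion_interior_of_closed hfc hfu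
  obtain ⟨z, hzN, hz⟩ := hdense.inter_open_nonempty N hN ⟨c₀, hyV⟩
  obtain ⟨i, hi⟩ := mem_iUnion.1 hz
  match i, hi with
  | none, hi => exact (interior_subset hi) hzN
  | some (Sum.inl e), hi =>
    have hi' : z ∈ interior ({(e : cantorSet)} : Set cantorSet) := hi
    have h2 : z = (e : cantorSet) := mem_singleton_iff.1 (interior_subset hi')
    have h1 : interior ({(e : cantorSet)} : Set cantorSet) = {(e : cantorSet)} := by
      refine interior_subset.antisymm (singleton_subset_iff.2 ?_)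
      rwa [h2] at hi'
    exact not_isOpen_singleton (e : cantorSet) (h1 ▸ isOpen_interior)
  | some (Sum.inr r), hi =>
    obtain ⟨e, he, heE⟩ := hEd.inter_open_nonempty _ isOpen_interior ⟨z, hi⟩
    have h2 : e ∈ f (some (Sum.inr r)) := interior_subset he
    have h1 : ((r : ℝ) ∈ Icc (0:ℝ) 1) ∧ (pt (e : ℝ) r ∉ U ∧ pt (e : ℝ) r ∉ V) := h2
    rcases hUV ⟨e, r, h1.1, rfl, fun _ => ⟨r, rfl⟩, fun _ => heE⟩ with h | h
    · exact h1.2.1 h
    · exact h1.2.2 h

theorem kk_connected {E : Set cantorSet} (hEc : E.Countable) (hEd : Dense E)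
    (hEn : E.Nonempty) : IsConnected (kk E) := by
  refine ⟨⟨0, zero_mem_kk hEn⟩, fun U V hU hV hUV hx hy => ?_⟩
  by_contra hno
  have hd : ∀ p ∈ fan, p ∈ U → p ∉ V := by
    intro p hp hpU hpV
    obtain ⟨z, hz, hzk⟩ := mem_closure_iff.1 (fan_sub_closure_kk E hp) (U ∩ V) (hU.inter hV)
      ⟨hpU, hpV⟩
    exact hno ⟨z, hzk, hz⟩
  rcases hUV (zero_mem_kk hEn) with h0 | h0
  · obtain ⟨y, hy, hyV⟩ := hy
    exact kk_core hEc hEd hU hV hUV hd h0 hy hyV
  · obtain ⟨x, hx, hxU⟩ := hx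
    exact kk_core hEc hEd hV hU (by rwa [union_comm]) (fun p hp h1 h2 => hd p hp h2 h1) h0 hx hxU

theorem kk_tot (E : Set cantorSet) : IsTotallyDisconnected (kk E \ {0}) := by
  intro S hS hpre
  have hfan : S ⊆ fan := fun p hp => kk_sub E (hS hp).1
  have hpos : ∀ p ∈ S, 0 < p.2 := fun p hp =>
    lt_of_le_of_ne (fan_nonneg (hfan hp)) fun h => (hS hp).2 (fan_zero (hfan hp) h.symm)
  have hmem : ∀ p ∈ S, ∃ c : cantorSet, (c : ℝ) = slope p ∧ (c ∈ E ↔ ∃ q : ℚ, (q : ℝ) = p.2) := by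
    intro p hp
    obtain ⟨c, t, ht, rfl, h⟩ := (hS hp).1
    have := hpos _ hp
    rw [pt_snd] at this
    exact ⟨c, (slope_pt this.ne').symm, h⟩
  have hlt : ∀ p ∈ S, ∀ q ∈ S, ¬ p.2 < q.2 := by
    intro p hp q hq hpq
    obtain ⟨r, hr1, hr2⟩ := exists_rat_btwn hpq
    obtain ⟨x, hx, hx1, hx2⟩ := exists_irrational_btwn hpq
    obtain ⟨z, hz, hzr⟩ := hpre.intermediate_value hp hq continuous_snd.continuousOn
      (show (r : ℝ) ∈ Icc _ _ from ⟨hr1.le, hr2.le⟩)
    obtain ⟨w, hw, hwx⟩ := hpre.intermediate_value hp hq continuous_snd.continuousOn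
      (show x ∈ Icc _ _ from ⟨hx1.le, hx2.le⟩)
    obtain ⟨c, hc, hcE⟩ := hmem z hz
    obtain ⟨d, hd, hdE⟩ := hmem w hw
    have hcd : c = d := Subtype.ext (by rw [hc, hd, slope_const hpre hfan hpos hz hw])
    have h1 : c ∈ E := hcE.2 ⟨r, hzr.symm⟩
    obtain ⟨q, hq⟩ := hdE.1 (hcd ▸ h1)
    exact hx ⟨q, by rw [hq, hwx]⟩
  intro p hp q hq
  have h2 : p.2 = q.2 := le_antisymm (not_lt.1 (hlt q hq p hp)) (not_lt.1 (hlt p hp q hq))
  rw [eq_pt (hpos p hp).ne', eq_pt (hpos q hq).ne', slope_const hpre hfan hpos hp hq, h2]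

/-- A set which becomes totally disconnected after removing a point contains no arc. -/
theorem no_arc {A : Set (ℝ × ℝ)} {v : ℝ × ℝ} (hA : IsTotallyDisconnected (A \ {v}))
    (f : unitInterval → ℝ × ℝ) (hf : Continuous f) (hinj : Function.Injective f) :
    ¬ range f ⊆ A := by
  intro hr
  let g : ℝ → ℝ × ℝ := fun t => f (projIcc 0 1 zero_le_one t)
  have hg : Continuous g := hf.comp continuous_projIcc
  have hginj : ∀ s ∈ Icc (0:ℝ) 1, ∀ t ∈ Icc (0:ℝ) 1, g s = g t → s = t := by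
    intro s hs t ht hst
    have := hinj hst
    rw [projIcc_of_mem zero_le_one hs, projIcc_of_mem zero_le_one ht] at this
    exact congrArg Subtype.val this
  have hstep : ∀ a b : ℝ, 0 ≤ a → a < b → b ≤ 1 → (∀ t ∈ Icc a b, g t ≠ v) → False := by
    intro a b ha hab hb hv
    have h1 : (g '' Icc a b).Subsingleton := by
      refine hA _ ?_ (isPreconnected_Icc.image _ hg.continuousOn)
      rintro _ ⟨t, ht, rfl⟩
      exact ⟨hr ⟨_, rfl⟩, hv t ht⟩
    have h2 := h1 (mem_image_of_mem g ⟨le_rfl, hab.le⟩) (mem_image_of_mem g ⟨hab.le, le_rfl⟩)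
    exact hab.ne (hginj a ⟨ha, hab.le.trans hb⟩ b ⟨ha.trans hab.le, hb⟩ h2)
  by_cases h : ∃ t ∈ Icc (1 / 2 : ℝ) 1, g t = v
  · obtain ⟨t, ht, htv⟩ := h
    refine hstep 0 (1 / 3) le_rfl (by norm_num) (by norm_num) fun s hs hsv => ?_
    have := hginj s ⟨hs.1, hs.2.trans (by norm_num)⟩ t ⟨le_trans (by norm_num) ht.1, ht.2⟩
      (hsv.trans htv.symm)
    linarith [hs.2, ht.1]
  · push Not at h
    exact hstep (1 / 2) 1 (by norm_num) (by norm_num) le_rfl h

/-- A countable pairwise disjoint closed cover of a connected, locally connected, locally compact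
Hausdorff space has only one nonempty member (Sierpinski). -/
theorem sierpinski {Y : Type} [TopologicalSpace Y] [T2Space Y] [ConnectedSpace Y]
    [LocallyConnectedSpace Y] [LocallyCompactSpace Y] {I : Type} [Countable I] (E : I → Set Y)
    (hE : ∀ i, IsClosed (E i)) (hdis : Pairwise (fun i j => Disjoint (E i) (E j)))
    (hcov : ⋃ i, E i = univ) : ∃ i, E i = univ := by
  classical
  have huniq : ∀ i j y, y ∈ E i → y ∈ E j → i = j := by
    intro i j y hi hj
    by_contra hij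
    exact (disjoint_left.1 (hdis hij)) hi hj
  let B : Set Y := (⋃ i, interior (E i))ᶜ
  have hBc : IsClosed B := (isOpen_iUnion fun i => isOpen_interior).isClosed_compl
  rcases B.eq_empty_or_nonempty with hB | hB
  · have hint : ∀ i, E i = interior (E i) := by
      intro i
      refine Subset.antisymm ?_ interior_subset
      intro y hy
      have h1 : y ∉ B := by rw [hB]; exact notMem_empty y
      simp only [B, mem_compl_iff, not_not, mem_iUnion] at h1
      obtain ⟨j, hj⟩ := h1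
      rw [huniq i j y hy (interior_subset hj)]
      exact hj
    obtain ⟨y0⟩ := (inferInstance : Nonempty Y)
    obtain ⟨i, hi⟩ := mem_iUnion.1 (by rw [hcov]; exact mem_univ y0 : y0 ∈ ⋃ i, E i)
    refine ⟨i, ?_⟩
    have hclopen : IsClopen (E i) := ⟨hE i, by rw [hint i]; exact isOpen_interior⟩
    rcases isClopen_iff.1 hclopen with h | h
    · rw [h] at hi
      exact absurd hi (notMem_empty _)
    · exact h
  · exfalso
    have : LocallyCompactSpace B := hBc.isClosedEmbedding_subtypeVal.locallyCompactSpace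
    have : Nonempty B := hB.to_subtype
    obtain ⟨j, hj⟩ := nonempty_interior_of_iUnion_of_closed
      (f := fun i : I => (Subtype.val ⁻¹' (E i) : Set B))
      (fun i => (hE i).preimage continuous_subtype_val) (by
        rw [← preimage_iUnion, hcov, preimage_univ])
    obtain ⟨⟨z, hzB⟩, hz⟩ := hj
    rw [mem_interior] at hz
    obtain ⟨W, hWsub, hWo, hzW⟩ := hz
    obtain ⟨W', hW'o, rfl⟩ := isOpen_induced_iff.1 hWo
    have hzW' : z ∈ W' := hzW
    obtain ⟨J, hJsub, hJo, hzJ, hJc⟩ :=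
      (locallyConnectedSpace_iff_subsets_isOpen_isConnected.1 inferInstance) z W'
        (hW'o.mem_nhds hzW')
    have hJB : J ∩ B ⊆ E j := by
      rintro y ⟨hyJ, hyB⟩
      exact hWsub (show (⟨y, hyB⟩ : B) ∈ Subtype.val ⁻¹' W' from hJsub hyJ)
    have hJE : J ⊆ E j := by
      intro x hxJ
      by_contra hxE
      have hxB : x ∉ B := fun h => hxE (hJB ⟨hxJ, h⟩)
      simp only [B, mem_compl_iff, not_not, mem_iUnion] at hxB
      obtain ⟨i, hi⟩ := hxB
      have hij : i ≠ j := fun h => hxE (h ▸ interior_subset hi)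
      have hzi : z ∉ interior (E i) := fun h => hzB (mem_iUnion.2 ⟨i, h⟩)
      have hfr : (J ∩ frontier (interior (E i))).Nonempty := by
        by_contra hemp
        rw [not_nonempty_iff_eq_empty] at hemp
        obtain ⟨w, -, hw1, hw2⟩ := hJc.isPreconnected (interior (E i)) (closure (interior (E i)))ᶜ
          isOpen_interior isClosed_closure.isOpen_compl (by
            intro y hy
            by_cases h1 : y ∈ interior (E i)
            · exact Or.inl h1
            · right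
              intro h2
              have : y ∈ J ∩ frontier (interior (E i)) := by
                refine ⟨hy, h2, ?_⟩
                rw [interior_interior]
                exact h1
              rw [hemp] at this
              exact this)
          ⟨x, hxJ, hi⟩
          ⟨z, hzJ, fun h => by
            have : z ∈ J ∩ frontier (interior (E i)) := by
              refine ⟨hzJ, h, ?_⟩
              rw [interior_interior]
              exact hzi
            rw [hemp] at this
            exact this⟩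
        exact hw2 (subset_closure hw1)
      obtain ⟨d, hdJ, hd1, hd2⟩ := hfr
      rw [interior_interior] at hd2
      have hdE : d ∈ E i := (hE i).closure_subset_iff.2 interior_subset hd1
      have hdB : d ∈ B := by
        simp only [B, mem_compl_iff, mem_iUnion, not_exists]
        intro k hk
        have := huniq i k d hdE (interior_subset hk)
        subst this
        exact hd2 hk
      exact hij (huniq i j d hdE (hJB ⟨hdJ, hdB⟩))
    have : z ∈ interior (E j) := mem_interior.2 ⟨J, hJE, hJo, hzJ⟩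
    exact hzB (mem_iUnion.2 ⟨j, this⟩)

end Pool.Agent.KS6_70.Fan
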